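import Mathlib
import Pool.Agent.H33.Tripod

set_option autoImplicit false

namespace Pool.Agent.Results.MP_0eda79_ag.NotCutOut

open MvPolynomial

/-- Index set of the Fourier coordinates for the claw tree with three leaves. -/
abbrev Flow (G : Type) [AddCommGroup G] : Type := {g : Fin 3 → G // ∑ i, g i = 0}

/-- Vanishing ideal of the image of the monomial map of the group-based model on the claw tree. -/
noncomputable def modelIdeal (G : Type) [AddCommGroup G] : Ideal (MvPolynomial (Flow G) ℂ) :=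
  vanishingIdeal ℂ (Set.range fun (a : Fin 3 → G → ℂ) (g : Flow G) => ∏ i, a i (g.1 i))

/-- The ideal generated by the homogeneous elements of degree exactly d. -/
noncomputable def degreePart {σ : Type} (I : Ideal (MvPolynomial σ ℂ)) (d : ℕ) :
    Ideal (MvPolynomial σ ℂ) :=
  Ideal.span {q | q ∈ I ∧ q.IsHomogeneous d}

/-- Saturation with respect to the ideal generated by all the variables. -/
noncomputable def saturation {σ : Type} (J : Ideal (MvPolynomial σ ℂ)) :
    Ideal (MvPolynomial σ ℂ) :=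
  ⨆ k : ℕ, J.colon ((Ideal.span (Set.range (X : σ → MvPolynomial σ ℂ)) ^ k :
    Ideal (MvPolynomial σ ℂ)) : Set (MvPolynomial σ ℂ))

lemma mem_modelIdeal {K : ℕ} (q : MvPolynomial (Flow (Pool.Agent.H33.Tripod.GG K)) ℂ) :
    q ∈ modelIdeal (Pool.Agent.H33.Tripod.GG K) ↔
      Pool.Agent.H33.Tripod.phi (fun g : Flow (Pool.Agent.H33.Tripod.GG K) => g.1) q = 0 := by
  have h1 : ∀ a : Fin 3 × Pool.Agent.H33.Tripod.GG K → ℂ,
      aeval a (Pool.Agent.H33.Tripod.phi (fun g : Flow (Pool.Agent.H33.Tripod.GG K) => g.1) q)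
        = aeval (fun g : Flow (Pool.Agent.H33.Tripod.GG K) => ∏ i, a (i, g.1 i)) q := by
    intro a
    rw [Pool.Agent.H33.Tripod.phi, ← AlgHom.comp_apply, comp_aeval]
    simp [Fin.prod_univ_three]
  rw [modelIdeal, mem_vanishingIdeal_iff]
  constructor
  · intro h
    apply MvPolynomial.funext
    intro a
    have h2 := h1 a
    rw [h _ ⟨fun i g => a (i, g), rfl⟩] at h2
    simpa using h2
  · rintro h _ ⟨a, rfl⟩
    rw [← h1 (fun v => a v.1 v.2), h, map_zero]

theorem result (Q : Polynomial ℕ) :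
    ∃ (G : Type) (_ : AddCommGroup G) (_ : Fintype G), ∀ d ≤ Q.eval (Fintype.card G),
      saturation (degreePart (modelIdeal G) d) ≠ modelIdeal G := by
  obtain ⟨K, hK⟩ := Pool.Agent.H33.Tripod.growth Q
  refine ⟨Pool.Agent.H33.Tripod.GG K, inferInstance, inferInstance, fun d hd heq => ?_⟩
  rw [Pool.Agent.H33.Tripod.card_GG] at hd
  have hg : Pool.Agent.H33.Tripod.Good (K := K)
      (fun g : Flow (Pool.Agent.H33.Tripod.GG K) => g.1)
      (fun a c => ⟨![a, -a - c, c], by
        rw [Fin.sum_univ_three]; exact (by abel : a + (-a - c) + c = 0)⟩) := by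
    refine ⟨fun f => ?_, fun f g h0 h2 => ?_, fun _ _ => rfl, fun _ _ => rfl⟩
    · rw [← Fin.sum_univ_three]; exact f.2
    · have hf := f.2
      have hg := g.2
      rw [Fin.sum_univ_three] at hf hg
      apply Subtype.ext
      funext i
      fin_cases i
      · exact h0
      · show f.1 1 = g.1 1
        linear_combination hf - hg - h0 - h2
      · exact h2
  obtain ⟨p, ⟨e, he⟩, ⟨f, hf, hfp⟩, hp⟩ := Pool.Agent.H33.Tripod.main hg
  have h1 : degreePart (modelIdeal (Pool.Agent.H33.Tripod.GG K)) d ≤ RingHom.ker (eval p) := by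
    rw [degreePart, Ideal.span_le]
    rintro q ⟨hq1, hq2⟩
    exact hp q ((mem_modelIdeal q).1 hq1) (lt_of_le_of_lt (hq2.totalDegree_le.trans hd) hK)
  have h2 : saturation (degreePart (modelIdeal (Pool.Agent.H33.Tripod.GG K)) d)
      ≤ RingHom.ker (eval p) := by
    refine iSup_le fun k g hg => ?_
    have h3 := h1 (Submodule.mem_colon.1 hg (X e ^ k)
      (Ideal.pow_mem_pow (Ideal.subset_span (Set.mem_range_self e)) k))
    rw [RingHom.mem_ker, smul_eq_mul, map_mul, map_pow, eval_X] at h3
    exact (mul_eq_zero.1 h3).resolve_right (pow_ne_zero _ he)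
  rw [heq] at h2
  exact hfp (h2 ((mem_modelIdeal f).2 hf))

end Pool.Agent.Results.MP_0eda79_ag.NotCutOut
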